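import Mathlib

set_option autoImplicit false

open scoped InnerProductSpace

namespace Pool.Agent.Results.MP_e5975b_an.Planar

/-- The vector `F(x)(u) = (⟨F₁(x),u⟩, …, ⟨F_m(x),u⟩)` of `ℝ^m`. -/
noncomputable def pairing {n m : ℕ} (F : Fin m → EuclideanSpace ℝ (Fin n) → EuclideanSpace ℝ (Fin n))
    (x u : EuclideanSpace ℝ (Fin n)) : Fin m → ℝ :=
  fun l => ⟪F l x, u⟫_ℝ

/-- The cone `C = ℝ^m_+`. -/
def cone (m : ℕ) : Set (Fin m → ℝ) := {c | ∀ l, 0 ≤ c l}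

/-- The Pareto solution set `Sol(F,K)`. -/
def Sol {n m : ℕ} (F : Fin m → EuclideanSpace ℝ (Fin n) → EuclideanSpace ℝ (Fin n))
    (K : Set (EuclideanSpace ℝ (Fin n))) : Set (EuclideanSpace ℝ (Fin n)) :=
  {x | x ∈ K ∧ ∀ y ∈ K, pairing F x (x - y) ∉ cone m \ {0}}

/-- The weak Pareto solution set `Sol^w(F,K)`. -/
def SolW {n m : ℕ} (F : Fin m → EuclideanSpace ℝ (Fin n) → EuclideanSpace ℝ (Fin n))
    (K : Set (EuclideanSpace ℝ (Fin n))) : Set (EuclideanSpace ℝ (Fin n)) :=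
  {x | x ∈ K ∧ ∀ y ∈ K, pairing F x (x - y) ∉ interior (cone m)}

/-- The proper Pareto solution set: the union over `ξ` in the relative interior of the simplex
of the solution sets of the scalar variational inequalities given by `F_ξ = ∑ ξ_l F_l`. -/
def SolPr {n m : ℕ} (F : Fin m → EuclideanSpace ℝ (Fin n) → EuclideanSpace ℝ (Fin n))
    (K : Set (EuclideanSpace ℝ (Fin n))) : Set (EuclideanSpace ℝ (Fin n)) :=
  {x | ∃ ξ : Fin m → ℝ, (∀ l, 0 < ξ l) ∧ ∑ l, ξ l = 1 ∧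
    x ∈ K ∧ ∀ y ∈ K, 0 ≤ ⟪∑ l, ξ l • F l x, y - x⟫_ℝ}

/-- Every `F_l` is monotone on `K`. -/
def IsMonotoneVVI {n m : ℕ} (F : Fin m → EuclideanSpace ℝ (Fin n) → EuclideanSpace ℝ (Fin n))
    (K : Set (EuclideanSpace ℝ (Fin n))) : Prop :=
  ∀ l, ∀ x ∈ K, ∀ y ∈ K, 0 ≤ ⟪F l y - F l x, y - x⟫_ℝ

/-- Every `F_l` is differentiable on an open set containing `K` and has a symmetric Jacobian
matrix at every point of `K`. -/
def IsSymmetricVVI {n m : ℕ} (F : Fin m → EuclideanSpace ℝ (Fin n) → EuclideanSpace ℝ (Fin n))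
    (K : Set (EuclideanSpace ℝ (Fin n))) : Prop :=
  ∀ l, (∃ U : Set (EuclideanSpace ℝ (Fin n)), IsOpen U ∧ K ⊆ U ∧ DifferentiableOn ℝ (F l) U) ∧
    ∀ x ∈ K, ∀ i j : Fin n,
      fderiv ℝ (F l) x (EuclideanSpace.single j 1) i =
        fderiv ℝ (F l) x (EuclideanSpace.single i 1) j

/-- A twice differentiable function with small derivatives and prescribed zeros. -/
lemma exists_rho (Z : Set ℝ) (hZ : IsClosed Z) : ∃ ρ ρ₁ ρ₂ : ℝ → ℝ,
    (∀ s, HasDerivAt ρ (ρ₁ s) s) ∧ (∀ s, HasDerivAt ρ₁ (ρ₂ s) s) ∧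
    (∀ s, |ρ s| ≤ 1 ∧ |ρ₁ s| ≤ 1 ∧ |ρ₂ s| ≤ 1) ∧ ∀ s, -1 ≤ s → s ≤ 2 → (ρ s = 0 ↔ s ∈ Z) := by
  have hU : IsOpen (Set.Ioo (-2 : ℝ) 3 \ Z) := isOpen_Ioo.sdiff hZ
  obtain ⟨f, hs, hf, -⟩ := hU.exists_contDiff_support_eq (n := 2)
  have hc : HasCompactSupport f :=
    HasCompactSupport.of_support_subset_isCompact (isCompact_Icc (a := (-2 : ℝ)) (b := 3))
      (by rw [hs]; exact fun s h => Set.Ioo_subset_Icc_self h.1)
  have hf1 : ContDiff ℝ 1 (deriv f) := by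
    have h2 : ContDiff ℝ (1 + 1) f := by exact_mod_cast hf
    exact h2.deriv'
  have hf2 : Continuous (deriv (deriv f)) := hf1.continuous_deriv le_rfl
  obtain ⟨B₀, h₀⟩ := hf.continuous.bounded_above_of_compact_support hc
  obtain ⟨B₁, h₁⟩ := hf1.continuous.bounded_above_of_compact_support hc.deriv
  obtain ⟨B₂, h₂⟩ := hf2.bounded_above_of_compact_support hc.deriv.deriv
  set B := max 1 (max B₀ (max B₁ B₂)) with hB
  have hB1 : 1 ≤ B := le_max_left _ _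
  have hB0 : 0 < B := by linarith
  have key : ∀ a b : ℝ, ‖a‖ ≤ b → b ≤ B → |a / B| ≤ 1 := by
    intro a b h1 h2
    rw [abs_div, abs_of_pos hB0, div_le_one hB0]
    exact le_trans h1 h2
  refine ⟨fun s => f s / B, fun s => deriv f s / B, fun s => deriv (deriv f) s / B,
    fun s => ?_, fun s => ?_, fun s => ⟨?_, ?_, ?_⟩, fun s a b => ?_⟩
  · exact ((hf.differentiable (by norm_num)) s).hasDerivAt.div_const B
  · exact ((hf1.differentiable (by norm_num)) s).hasDerivAt.div_const B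
  · exact key _ _ (h₀ s) (le_max_of_le_right (le_max_left _ _))
  · exact key _ _ (h₁ s) (le_max_of_le_right (le_max_of_le_right (le_max_left _ _)))
  · exact key _ _ (h₂ s) (le_max_of_le_right (le_max_of_le_right (le_max_right _ _)))
  · have h1 : s ∈ Function.support f ↔ s ∈ Set.Ioo (-2 : ℝ) 3 \ Z := by rw [hs]
    have h2 : s ∈ Set.Ioo (-2 : ℝ) 3 := ⟨by linarith, by linarith⟩
    rw [Function.mem_support] at h1
    simp only [div_eq_zero_iff, hB0.ne', or_false]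
    constructor
    · intro h
      by_contra hz
      exact h1.2 ⟨h2, hz⟩ h
    · intro hz
      by_contra h
      exact (h1.1 h).2 hz

/-- A logistic profile. -/
noncomputable def lg (w : ℝ) : ℝ := (1 + Real.exp (w + 2))⁻¹

lemma lg_pos (w : ℝ) : 0 < lg w := by unfold lg; positivity

lemma lg_lt (w : ℝ) : lg w < 1 := by
  unfold lg
  exact inv_lt_one_of_one_lt₀ (by linarith [Real.exp_pos (w + 2)])

lemma lg_le (w : ℝ) (h : -1 ≤ w) : lg w ≤ 1 / 3 := by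
  unfold lg
  have := Real.add_one_le_exp (w + 2)
  rw [inv_le_comm₀ (by positivity) (by norm_num)]
  norm_num
  linarith

lemma lg_deriv (w : ℝ) : HasDerivAt lg (-(lg w * (1 - lg w))) w := by
  have h0 : (1 + Real.exp (w + 2)) ≠ 0 := by positivity
  have h1 : HasDerivAt (fun w => 1 + Real.exp (w + 2)) (Real.exp (w + 2)) w := by
    simpa using (((hasDerivAt_id w).add_const 2).exp).const_add 1
  have h2 := h1.inv h0
  have e : -(lg w * (1 - lg w)) = -Real.exp (w + 2) / (1 + Real.exp (w + 2)) ^ 2 := by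
    unfold lg
    field_simp
    ring
  rw [e]
  exact h2

lemma lg_deriv2 (w : ℝ) : HasDerivAt (fun w => -(lg w * (1 - lg w)))
    (lg w * (1 - lg w) * (1 - 2 * lg w)) w := by
  have h := ((lg_deriv w).mul ((lg_deriv w).const_sub 1)).neg
  have e : lg w * (1 - lg w) * (1 - 2 * lg w) =
      -(-(lg w * (1 - lg w)) * (1 - lg w) + lg w * - -(lg w * (1 - lg w))) := by ring
  rw [e]
  exact h

lemma sq_min_deriv (w : ℝ) : HasDerivAt (fun w : ℝ => (min w 0) ^ 2) (2 * min w 0) w := by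
  rcases lt_trichotomy w 0 with h | rfl | h
  · have h1 : HasDerivAt (fun w : ℝ => w ^ 2) (2 * w) w := by simpa using hasDerivAt_pow 2 w
    rw [min_eq_left h.le]
    refine h1.congr_of_eventuallyEq ?_
    filter_upwards [Iio_mem_nhds h] with v hv
    rw [min_eq_left (le_of_lt hv)]
  · rw [hasDerivAt_iff_isLittleO_nhds_zero]
    have h1 : (fun h : ℝ => h ^ 2) =o[nhds 0] fun h => h := by
      simpa using Asymptotics.isLittleO_pow_id (𝕜 := ℝ) (n := 2) (by norm_num)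
    refine Asymptotics.IsBigO.trans_isLittleO ?_ h1
    refine Asymptotics.IsBigO.of_bound 1 (Filter.Eventually.of_forall fun v => ?_)
    rcases le_total v 0 with a | a
    · simp [min_eq_left a]
    · simp [min_eq_right a]
      positivity
  · rw [min_eq_right h.le, mul_zero]
    refine (hasDerivAt_const w (0 : ℝ)).congr_of_eventuallyEq ?_
    filter_upwards [Ioi_mem_nhds h] with v hv
    rw [min_eq_right (le_of_lt hv)]
    norm_num

/-- The Jacobian matrix is positive semidefinite. -/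
lemma quad (r r₁ r₂ w u v : ℝ) (h0 : |r| ≤ 1) (h1 : |r₁| ≤ 1) (h2 : |r₂| ≤ 1) :
    0 ≤ (10 + 2 * (r₁ * r₁ + r * r₂) * lg w) * u * u
      + 2 * (2 * (r * r₁) * -(lg w * (1 - lg w))) * u * v
      + (r ^ 2 * (lg w * (1 - lg w) * (1 - 2 * lg w)) - 2 * min w 0) * v * v := by
  have y0 := lg_pos w
  have y1 := lg_lt w
  set y := lg w with hy
  set a := y * (1 - y) with ha
  have a0 : 0 ≤ a := by rw [ha]; nlinarith
  have a1 : a ≤ 1 / 4 := by rw [ha]; nlinarith [sq_nonneg (y - 1 / 2)]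
  have e0 : r ^ 2 ≤ 1 := by rw [← sq_abs]; nlinarith [abs_nonneg r]
  have e1 : r₁ ^ 2 ≤ 1 := by rw [← sq_abs]; nlinarith [abs_nonneg r₁]
  have e2 : -1 ≤ r * r₂ := by
    have : |r * r₂| ≤ 1 := by rw [abs_mul]; nlinarith [abs_nonneg r, abs_nonneg r₂]
    exact (abs_le.1 this).1
  have b1 : 8 ≤ 10 + 2 * (r₁ * r₁ + r * r₂) * y := by nlinarith [mul_self_nonneg r₁]
  have b2 : r ^ 2 * a ^ 2 / 2 ≤ r ^ 2 * (a * (1 - 2 * y)) - 2 * min w 0 := by
    have r0 := sq_nonneg r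
    have ra : 0 ≤ r ^ 2 * a := mul_nonneg r0 a0
    rcases le_total (-1) w with h | h
    · have := lg_le w h
      have m : min w 0 ≤ 0 := min_le_right _ _
      have : 0 ≤ r ^ 2 * a * (1 - 2 * y - a / 2) := mul_nonneg ra (by linarith)
      nlinarith
    · have m : min w 0 ≤ -1 := (min_le_left _ _).trans h
      have k1 : r ^ 2 * a ≤ 1 / 4 := by nlinarith
      have : 0 ≤ r ^ 2 * a * (1 - 2 * y - a / 2 + 2) := mul_nonneg ra (by linarith)
      nlinarith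
  have c1 : 8 * (u * u) ≤ (10 + 2 * (r₁ * r₁ + r * r₂) * y) * (u * u) :=
    mul_le_mul_of_nonneg_right b1 (mul_self_nonneg u)
  have c2 : r ^ 2 * a ^ 2 / 2 * (v * v) ≤ (r ^ 2 * (a * (1 - 2 * y)) - 2 * min w 0) * (v * v) :=
    mul_le_mul_of_nonneg_right b2 (mul_self_nonneg v)
  have c3 : r₁ ^ 2 * (u * u) ≤ 1 * (u * u) := mul_le_mul_of_nonneg_right e1 (mul_self_nonneg u)
  nlinarith [sq_nonneg (4 * r₁ * u - r * a * v)]

/-- The plane. -/
abbrev E2 := EuclideanSpace ℝ (Fin 2)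

/-- First component of the field. -/
noncomputable def cP (ρ ρ₁ : ℝ → ℝ) (c : ℝ) (x : E2) : ℝ :=
  10 * (x 0 - c) + 2 * (ρ (x 0) * ρ₁ (x 0)) * lg (x 1)

/-- Second component of the field. -/
noncomputable def cQ (ρ : ℝ → ℝ) (x : E2) : ℝ :=
  ρ (x 0) ^ 2 * -(lg (x 1) * (1 - lg (x 1))) - (min (x 1) 0) ^ 2

/-- The gradient field with centre `c`. -/
noncomputable def fld (ρ ρ₁ : ℝ → ℝ) (c : ℝ) (x : E2) : E2 :=
  cP ρ ρ₁ c x • EuclideanSpace.single 0 (1 : ℝ) + cQ ρ x • EuclideanSpace.single 1 (1 : ℝ)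

lemma inner_fld (ρ ρ₁ : ℝ → ℝ) (c : ℝ) (x u : E2) :
    ⟪fld ρ ρ₁ c x, u⟫_ℝ = cP ρ ρ₁ c x * u 0 + cQ ρ x * u 1 := by
  simp [fld, inner_add_left, inner_smul_left, EuclideanSpace.inner_single_left]

lemma fld_deriv {ρ ρ₁ ρ₂ : ℝ → ℝ} (h1 : ∀ s, HasDerivAt ρ (ρ₁ s) s)
    (h2 : ∀ s, HasDerivAt ρ₁ (ρ₂ s) s) (c : ℝ) (x : E2) :
    ∃ D : E2 →L[ℝ] E2, HasFDerivAt (fld ρ ρ₁ c) D x ∧ ∀ v : E2,
      D v 0 = (10 + 2 * (ρ₁ (x 0) * ρ₁ (x 0) + ρ (x 0) * ρ₂ (x 0)) * lg (x 1)) * v 0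
        + 2 * (ρ (x 0) * ρ₁ (x 0)) * -(lg (x 1) * (1 - lg (x 1))) * v 1 ∧
      D v 1 = 2 * (ρ (x 0) * ρ₁ (x 0)) * -(lg (x 1) * (1 - lg (x 1))) * v 0
        + (ρ (x 0) ^ 2 * (lg (x 1) * (1 - lg (x 1)) * (1 - 2 * lg (x 1))) - 2 * min (x 1) 0) * v 1 := by
  have p0 : HasFDerivAt (fun x : E2 => x 0) (EuclideanSpace.proj (0 : Fin 2) : E2 →L[ℝ] ℝ) x :=
    (EuclideanSpace.proj (0 : Fin 2) : E2 →L[ℝ] ℝ).hasFDerivAt
  have p1 : HasFDerivAt (fun x : E2 => x 1) (EuclideanSpace.proj (1 : Fin 2) : E2 →L[ℝ] ℝ) x :=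
    (EuclideanSpace.proj (1 : Fin 2) : E2 →L[ℝ] ℝ).hasFDerivAt
  have a0 := (h1 (x 0)).comp_hasFDerivAt x p0
  have a1 := (h2 (x 0)).comp_hasFDerivAt x p0
  have a2 := (lg_deriv (x 1)).comp_hasFDerivAt x p1
  have a3 := (lg_deriv2 (x 1)).comp_hasFDerivAt x p1
  have a4 := (sq_min_deriv (x 1)).comp_hasFDerivAt x p1
  have hP := (((p0.sub_const c).const_mul 10).add (((a0.mul a1).const_mul 2).mul a2))
  have hQ := ((a0.pow 2).mul a3).sub a4
  have hF := (hP.smul_const (EuclideanSpace.single (0 : Fin 2) (1 : ℝ) : E2)).add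
    (hQ.smul_const (EuclideanSpace.single (1 : Fin 2) (1 : ℝ) : E2))
  refine ⟨_, hF, fun v => ⟨?_, ?_⟩⟩
  · simp
    ring
  · simp
    ring

lemma fld_mono {ρ ρ₁ ρ₂ : ℝ → ℝ} (h1 : ∀ s, HasDerivAt ρ (ρ₁ s) s)
    (h2 : ∀ s, HasDerivAt ρ₁ (ρ₂ s) s) (hb : ∀ s, |ρ s| ≤ 1 ∧ |ρ₁ s| ≤ 1 ∧ |ρ₂ s| ≤ 1)
    (c : ℝ) (x y : E2) : 0 ≤ ⟪fld ρ ρ₁ c y - fld ρ ρ₁ c x, y - x⟫_ℝ := by
  choose D hD hv using fld_deriv h1 h2 c
  set v := y - x with hvd
  have hd : ∀ t : ℝ, HasDerivAt (fun t : ℝ => ⟪fld ρ ρ₁ c (x + t • v), v⟫_ℝ)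
      ⟪D (x + t • v) v, v⟫_ℝ t := by
    intro t
    have b1 : HasDerivAt (fun t : ℝ => x + t • v) v t := by
      simpa using ((hasDerivAt_id t).smul_const v).const_add x
    have b2 := (hD (x + t • v)).comp_hasDerivAt t b1
    simpa using b2.inner ℝ (hasDerivAt_const t v)
  have hm := monotone_of_hasDerivAt_nonneg hd (fun t => by
    obtain ⟨e0, e1⟩ := hv (x + t • v) v
    obtain ⟨k0, k1, k2⟩ := hb ((x + t • v) 0)
    have := quad _ _ _ ((x + t • v) 1) (v 0) (v 1) k0 k1 k2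
    have e : ⟪D (x + t • v) v, v⟫_ℝ = D (x + t • v) v 0 * v 0 + D (x + t • v) v 1 * v 1 := by
      simp [PiLp.inner_apply, Fin.sum_univ_two]
      ring
    show 0 ≤ ⟪D (x + t • v) v, v⟫_ℝ
    rw [e, e0, e1]
    linarith)
  have := hm (zero_le_one (α := ℝ))
  simp only [zero_smul, add_zero, one_smul] at this
  have e : x + v = y := by rw [hvd]; abel
  rw [e] at this
  rw [inner_sub_left]
  linarith

lemma mem_interior_cone {m : ℕ} (c : Fin m → ℝ) : c ∈ interior (cone m) ↔ ∀ l, 0 < c l := by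
  have : cone m = Set.pi Set.univ fun _ => Set.Ici (0 : ℝ) := by
    ext c; simp only [cone, Set.mem_pi, Set.mem_ofPred_eq, Set.mem_univ, Set.mem_Ici, true_imp_iff]
  rw [this, interior_pi_set Set.finite_univ]
  simp [Set.mem_pi]

lemma SolPr_subset {n m : ℕ} (F : Fin m → EuclideanSpace ℝ (Fin n) → EuclideanSpace ℝ (Fin n))
    (K : Set (EuclideanSpace ℝ (Fin n))) : SolPr F K ⊆ Sol F K := by
  rintro x ⟨ξ, h0, -, hx, h⟩
  refine ⟨hx, fun y hy hc => ?_⟩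
  have h1 := h y hy
  rw [sum_inner] at h1
  have h2 : ∀ l, ⟪ξ l • F l x, y - x⟫_ℝ = -(ξ l * pairing F x (x - y) l) := by
    intro l
    rw [real_inner_smul_left, pairing, ← neg_sub x y, inner_neg_right]
    ring
  simp only [h2, Finset.sum_neg_distrib] at h1
  have h3 : ∀ l ∈ Finset.univ, 0 ≤ ξ l * pairing F x (x - y) l :=
    fun l _ => mul_nonneg (h0 l).le (hc.1 l)
  have h4 := (Finset.sum_eq_zero_iff_of_nonneg h3).1
    (le_antisymm (by linarith) (Finset.sum_nonneg h3))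
  refine hc.2 (funext fun l => ?_)
  exact (mul_eq_zero.1 (h4 l (Finset.mem_univ l))).resolve_left (h0 l).ne'

lemma Sol_subset {n : ℕ} (F : Fin 2 → EuclideanSpace ℝ (Fin n) → EuclideanSpace ℝ (Fin n))
    (K : Set (EuclideanSpace ℝ (Fin n))) : Sol F K ⊆ SolW F K := by
  rintro x ⟨hx, h⟩
  refine ⟨hx, fun y hy hc => h y hy ⟨interior_subset hc, ?_⟩⟩
  rw [mem_interior_cone] at hc
  intro h0
  have := hc 0
  rw [Set.mem_singleton_iff.mp h0] at this
  simp at this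

theorem result (Z : Set ℝ) (hZ : IsClosed Z) (hZ1 : Z ⊆ Set.Icc 0 1) :
    ∃ F : Fin 2 → EuclideanSpace ℝ (Fin 2) → EuclideanSpace ℝ (Fin 2),
      (∀ l, Continuous (F l)) ∧ IsMonotoneVVI F Set.univ ∧ IsSymmetricVVI F Set.univ ∧
      ∃ S : Set (EuclideanSpace ℝ (Fin 2)), S = {x | x 0 ∈ Z ∧ 0 ≤ x 1} ∧
        SolW F Set.univ = S ∧ Sol F Set.univ = S ∧ SolPr F Set.univ = S ∧
        (S.Nonempty ↔ Z.Nonempty) ∧ (IsConnected S ↔ IsConnected Z) := by
  obtain ⟨ρ, ρ₁, ρ₂, h1, h2, hb, hz⟩ := exists_rho Z hZ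
  set F : Fin 2 → E2 → E2 := fun l => fld ρ ρ₁ (if l = 0 then -1 else 2) with hF
  set R : Set E2 := {x | x 0 ∈ Z ∧ 0 ≤ x 1} with hR
  have hdiff : ∀ l, Differentiable ℝ (F l) := fun l x => by
    obtain ⟨D, hD, -⟩ := fld_deriv h1 h2 (if l = 0 then -1 else 2) x
    exact hD.differentiableAt
  have s1 : SolW F Set.univ ⊆ R := by
    rintro x ⟨-, h⟩
    have key : ∀ u : E2, ¬ (0 < cP ρ ρ₁ (-1) x * u 0 + cQ ρ x * u 1 ∧
        0 < cP ρ ρ₁ 2 x * u 0 + cQ ρ x * u 1) := by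
      rintro u ⟨a, b⟩
      refine h (x - u) (Set.mem_univ _) ?_
      rw [mem_interior_cone, sub_sub_cancel]
      intro l
      fin_cases l
      · simpa [pairing, hF, inner_fld] using a
      · simpa [pairing, hF, inner_fld] using b
    have hq : cQ ρ x = 0 := by
      by_contra hq
      have := mul_self_pos.2 hq
      exact key !₂[0, cQ ρ x] ⟨by simpa using hq, by simpa using hq⟩
    have y0 := lg_pos (x 1)
    have y1 := lg_lt (x 1)
    have a0 : 0 < lg (x 1) * (1 - lg (x 1)) := mul_pos y0 (by linarith)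
    have q1 : 0 ≤ ρ (x 0) ^ 2 * (lg (x 1) * (1 - lg (x 1))) := by positivity
    have q2 := sq_nonneg (min (x 1) 0)
    unfold cQ at hq
    have q3 : ρ (x 0) ^ 2 * (lg (x 1) * (1 - lg (x 1))) = 0 := by nlinarith
    have q4 : (min (x 1) 0) ^ 2 = 0 := by nlinarith
    have r0 : ρ (x 0) = 0 := by
      rcases mul_eq_zero.1 q3 with k | k
      · exact pow_eq_zero_iff (two_ne_zero) |>.1 k
      · exact absurd k a0.ne'
    have w0 : 0 ≤ x 1 := by
      have := pow_eq_zero_iff (two_ne_zero) |>.1 q4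
      exact min_eq_right_iff.1 this
    have k1 := key !₂[1, 0]
    have k2 := key !₂[-1, 0]
    simp [cP, r0] at k1 k2
    refine ⟨(hz _ ?_ ?_).1 r0, w0⟩
    · by_contra hc
      have := k2 (by linarith)
      linarith
    · by_contra hc
      have := k1 (by linarith)
      linarith
  have s2 : R ⊆ SolPr F Set.univ := by
    rintro x ⟨hx, hw⟩
    obtain ⟨z0, z1⟩ := hZ1 hx
    have r0 : ρ (x 0) = 0 := (hz _ (by linarith) (by linarith)).2 hx
    refine ⟨![(2 - x 0) / 3, (x 0 + 1) / 3], fun l => ?_, ?_, Set.mem_univ _, fun y _ => ?_⟩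
    · fin_cases l
      · simp; linarith
      · simp; linarith
    · simp [Fin.sum_univ_two]; ring
    · rw [Fin.sum_univ_two, inner_add_left, real_inner_smul_left, real_inner_smul_left]
      simp [hF, inner_fld, cP, cQ, r0, min_eq_right hw]
      nlinarith
  have e1 : SolPr F Set.univ = R :=
    ((SolPr_subset _ _).trans ((Sol_subset _ _).trans s1)).antisymm s2
  have e2 : Sol F Set.univ = R :=
    ((Sol_subset _ _).trans s1).antisymm (s2.trans (SolPr_subset _ _))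
  have e3 : SolW F Set.univ = R :=
    s1.antisymm (s2.trans ((SolPr_subset _ _).trans (Sol_subset _ _)))
  have i1 : (fun x : E2 => x 0) '' R = Z := by
    ext s
    constructor
    · rintro ⟨x, hx, rfl⟩
      exact hx.1
    · intro hs
      exact ⟨!₂[s, 0], ⟨by simpa using hs, by simp⟩, by simp⟩
  have i2 : (fun p : ℝ × ℝ => (!₂[p.1, p.2] : E2)) '' (Z ×ˢ Set.Ici 0) = R := by
    ext x
    constructor
    · rintro ⟨p, hp, rfl⟩
      exact ⟨by simpa using hp.1, by simpa using hp.2⟩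
    · intro hx
      refine ⟨(x 0, x 1), ⟨hx.1, hx.2⟩, ?_⟩
      ext i
      fin_cases i <;> simp
  have n1 : R.Nonempty ↔ Z.Nonempty := by rw [← i1, Set.image_nonempty]
  have n2 : IsPreconnected R ↔ IsPreconnected Z := by
    constructor
    · intro h
      rw [← i1]
      exact h.image _ (by fun_prop)
    · intro h
      rw [← i2]
      exact (h.prod isPreconnected_Ici).image _ (by fun_prop)
  refine ⟨F, fun l => (hdiff l).continuous, fun l x _ y _ => fld_mono h1 h2 hb _ x y,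
    fun l => ⟨⟨Set.univ, isOpen_univ, Set.Subset.rfl, (hdiff l).differentiableOn⟩,
      fun x _ i j => ?_⟩, ?_⟩
  · obtain ⟨D, hD, hv⟩ := fld_deriv h1 h2 (if l = 0 then -1 else 2) x
    have : fderiv ℝ (F l) x = D := hD.fderiv
    rw [this]
    fin_cases i <;> fin_cases j
    · rfl
    · simp [(hv _).1, (hv _).2]
    · simp [(hv _).1, (hv _).2]
    · rfl
  · exact ⟨R, rfl, e3, e2, e1, n1, and_congr n1 n2⟩

end Pool.Agent.Results.MP_e5975b_an.Planar
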